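import Pool.Agent.Work.MP_64ea0f_cs.InterfaceC

set_option autoImplicit false

/-! # Blocks C_WIN and C_WRD of MP_64ea0f_cs (helper48) -/

namespace Pool.CS

namespace H48

variable {Λ : Type} {G : SimpleGraph Λ}

theorem wp_mul_comm_rg {a : Λ} {l : List Λ} (h : ∀ t ∈ l, G.Adj a t) :
    wp G l * rg G a = rg G a * wp G l := by
  induction l with
  | nil => rw [wp_nil, one_mul, mul_one]
  | cons b l ih =>
    have h1 : G.Adj a b := h b (List.mem_cons_self ..)
    have h2 := ih fun t ht => h t (List.mem_cons_of_mem _ ht)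
    rw [wp_cons, mul_assoc, h2, ← mul_assoc, ← mul_assoc, rg_comm h1]

theorem window_split (m : ℕ) (i : ℤ) (h1 : -(m : ℤ) < i) (h2 : i ≤ m) :
    ∃ A B : List ℤ, (List.range (2 * m)).map (fun i : ℕ => (i : ℤ) - m + 1) = A ++ i :: B ∧
      (∀ a ∈ A, a ≠ i) ∧ ∀ b ∈ B, i < b := by
  have hs : ((List.range (2 * m)).map (fun i : ℕ => (i : ℤ) - m + 1)).Pairwise (· < ·) := by
    rw [List.pairwise_map]
    refine List.pairwise_lt_range.imp ?_
    intro a b hab
    have : (a : ℤ) < b := by exact_mod_cast hab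
    linarith
  have hi : i ∈ (List.range (2 * m)).map (fun i : ℕ => (i : ℤ) - m + 1) := by
    rw [List.mem_map]
    refine ⟨(i + m - 1).toNat, ?_, ?_⟩
    · rw [List.mem_range]
      omega
    · have : ((i + m - 1).toNat : ℤ) = i + m - 1 := Int.toNat_of_nonneg (by linarith)
      rw [this]
      ring
  obtain ⟨A, B, hAB⟩ := List.append_of_mem hi
  rw [hAB, List.pairwise_append] at hs
  obtain ⟨-, hs2, hs3⟩ := hs
  rw [List.pairwise_cons] at hs2
  exact ⟨A, B, hAB, fun a ha => (hs3 a ha i (List.mem_cons_self ..)).ne, hs2.1⟩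

open Classical in
theorem win_step (H : Per G) {D : Set ℤ} (hD : H.Cut D) {i : ℤ} (hi : H.Cut (symmDiff D {i}))
    (hiD : i ∉ D) (m : ℕ) (h1 : -(m : ℤ) < i) (h2 : i ≤ m) :
    H.win m D * rg G (H.s i) = H.win m (symmDiff D {i}) := by
  have ai := H.act_of_cut hD hi
  obtain ⟨A, B, hAB, hA, hB⟩ := window_split m i h1 h2
  unfold Per.win
  rw [hAB]
  have e1 : (A ++ i :: B).filter (fun j => decide (j ∈ D ∧ H.act j)) =
      A.filter (fun j => decide (j ∈ D ∧ H.act j)) ++ B.filter (fun j => decide (j ∈ D ∧ H.act j)) := by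
    rw [List.filter_append, List.filter_cons_of_neg]
    simp [hiD]
  have e2 : (A ++ i :: B).filter (fun j => decide (j ∈ symmDiff D {i} ∧ H.act j)) =
      A.filter (fun j => decide (j ∈ D ∧ H.act j)) ++
        i :: B.filter (fun j => decide (j ∈ D ∧ H.act j)) := by
    rw [List.filter_append, List.filter_cons_of_pos]
    · congr 1
      · apply List.filter_congr
        intro a ha
        rw [Per.mem_flip_ne (hA a ha)]
      · congr 1
        apply List.filter_congr
        intro b hb
        rw [Per.mem_flip_ne (hB b hb).ne']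
    · rw [decide_eq_true_iff, Per.mem_flip_self]
      exact ⟨hiD, ai⟩
  have e3 : ∀ t ∈ (B.filter (fun j => decide (j ∈ D ∧ H.act j))).map H.s, G.Adj (H.s i) t := by
    intro t ht
    rw [List.mem_map] at ht
    obtain ⟨b, hb, rfl⟩ := ht
    rw [List.mem_filter, decide_eq_true_iff] at hb
    obtain ⟨hb1, hb2, hb3⟩ := hb
    by_contra hc
    exact hiD (hD.1 i b ai hb3 (hB b hb1) (Or.inr hc) hb2)
  rw [e1, e2, List.map_append, List.map_append, List.map_cons, wp_append, wp_append, wp_cons,
    mul_assoc, wp_mul_comm_rg e3]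

theorem win_step' (H : Per G) {D : Set ℤ} (hD : H.Cut D) {i : ℤ} (hi : H.Cut (symmDiff D {i}))
    (m : ℕ) (h1 : -(m : ℤ) < i) (h2 : i ≤ m) :
    H.win m D * rg G (H.s i) = H.win m (symmDiff D {i}) := by
  by_cases hiD : i ∈ D
  · have h3 : i ∉ symmDiff D {i} := by
      rw [Per.mem_flip_self]
      exact fun h => h hiD
    have h4 : H.Cut (symmDiff (symmDiff D {i}) {i}) := by
      rw [Per.flip_flip]
      exact hD
    have h5 := win_step H hi h4 h3 m h1 h2
    rw [Per.flip_flip] at h5
    rw [← h5, mul_assoc, rg_mul_self, mul_one]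
  · exact win_step H hD hi hiD m h1 h2

end H48

theorem c_win_thm : Stmt_C_WIN := by
  intro Λ G H D D' p hp
  induction hp with
  | nil D h => exact ⟨0, fun m _ => by rw [wp_nil, mul_one]⟩
  | cons D i w D' h hi hp ih =>
    obtain ⟨m₀, hm₀⟩ := ih
    refine ⟨max m₀ (i.natAbs + 1), fun m hm => ?_⟩
    have h1 : m₀ ≤ m := le_trans (le_max_left _ _) hm
    have h2 : i.natAbs + 1 ≤ m := le_trans (le_max_right _ _) hm
    rw [wp_cons, ← mul_assoc, H48.win_step' H h hi m (by omega) (by omega)]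
    exact hm₀ m h1

end Pool.CS
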