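import Pool.Agent.Work.MP_64ea0f_cs.InterfaceC

set_option autoImplicit false

/-! # Block C_WRD of MP_64ea0f_cs (helper48) -/

namespace Pool.CS

namespace H48

variable {Λ : Type} {G : SimpleGraph Λ}

theorem cut_Iic (H : Per G) {j : ℤ} (h0 : 0 ≤ j) (hk : j ≤ H.k) : H.Cut {i : ℤ | i ≤ j} := by
  refine ⟨fun a b _ _ h _ hb => le_trans h.le hb, fun i hi => ?_, ?_⟩
  · have h1 : ¬ (1 ≤ i ∧ i ≤ H.k) := fun h => hi (Or.inr h)
    change i ≤ j ↔ i ≤ 0
    constructor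
    · intro h
      by_contra h2
      exact h1 ⟨by omega, by omega⟩
    · intro h
      exact le_trans h h0
  · refine (Set.finite_Icc (0 : ℤ) j).subset ?_
    intro i hi
    rw [Set.mem_symmDiff] at hi
    rcases hi with ⟨h1, h2⟩ | ⟨h1, h2⟩
    · have h3 : i ≤ j := h1
      have h4 : ¬ i ≤ 0 := h2
      exact ⟨by omega, h3⟩
    · have h3 : i ≤ 0 := h1
      have h4 : ¬ i ≤ j := h2
      exact absurd (le_trans h3 h0) h4

theorem flip_Iic (j : ℤ) : symmDiff {i : ℤ | i ≤ j} {j + 1} = {i : ℤ | i ≤ j + 1} := by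
  ext i
  by_cases h : i = j + 1
  · subst h
    rw [Per.mem_flip_self]
    simp
  · rw [Per.mem_flip_ne h]
    simp only [Set.mem_setOf_eq]
    omega

theorem path_Iic (H : Per G) (n : ℕ) : ∀ j : ℕ, j + n ≤ H.k →
    H.Path {i : ℤ | i ≤ (j : ℤ)} ((List.range' j n).map (fun i : ℕ => H.s (i + 1)))
      {i : ℤ | i ≤ ((j + n : ℕ) : ℤ)} := by
  induction n with
  | zero =>
    intro j hj
    have h1 : H.Cut {i : ℤ | i ≤ (j : ℤ)} := cut_Iic H (by omega) (by omega)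
    simpa using Per.Path.nil _ h1
  | succ n ih =>
    intro j hj
    have h1 : H.Cut {i : ℤ | i ≤ (j : ℤ)} := cut_Iic H (by omega) (by omega)
    have h2 : H.Cut (symmDiff {i : ℤ | i ≤ (j : ℤ)} {(j : ℤ) + 1}) := by
      rw [flip_Iic]
      exact cut_Iic H (by omega) (by omega)
    have h3 := ih (j + 1) (by omega)
    rw [List.range'_succ, List.map_cons]
    refine Per.Path.cons _ _ _ _ h1 h2 ?_
    rw [flip_Iic]
    have e1 : ((j + 1 : ℕ) : ℤ) = (j : ℤ) + 1 := by push_cast; ring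
    have e2 : j + 1 + n = j + (n + 1) := by omega
    rw [e1, e2] at h3
    exact h3

theorem tr_D0 (H : Per G) : H.tr Per.D0 = {i : ℤ | i ≤ (H.k : ℤ)} := by
  ext i
  have hact : H.act i ↔ (¬ H.iso (H.s i) ∨ (1 ≤ i ∧ i ≤ H.k)) := Iff.rfl
  have hk : 0 < H.k := H.pos
  change ((¬ H.iso (H.s i) ∧ i - H.k ≤ 0) ∨ (H.iso (H.s i) ∧ H.act i ∧ ¬ i ≤ 0) ∨
    (H.iso (H.s i) ∧ ¬ H.act i ∧ i ≤ 0)) ↔ i ≤ (H.k : ℤ)
  rw [hact]
  by_cases hi : H.iso (H.s i)
  · simp only [hi, not_true_eq_false, false_and, false_or, true_and]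
    omega
  · simp only [hi, not_false_eq_true, true_and, false_and, or_false]
    omega

end H48

theorem c_wrd_thm : Stmt_C_WRD := by
  intro Λ G H
  have h := H48.path_Iic H H.k 0 (by omega)
  rw [H48.tr_D0]
  have e1 : (Per.D0 : Set ℤ) = {i : ℤ | i ≤ ((0 : ℕ) : ℤ)} := by
    unfold Per.D0
    simp
  have e2 : H.word = (List.range' 0 H.k).map (fun i : ℕ => H.s (i + 1)) := by
    unfold Per.word
    rw [List.range_eq_range']
  have e3 : 0 + H.k = H.k := by omega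
  rw [e3] at h
  rw [e1, e2]
  exact h

end Pool.CS
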