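import Pool.Agent.Work.MP_64ea0f_cs_helper48.FOR3

set_option autoImplicit false

/-! # Block FOR of MP_64ea0f_cs (helper48), part 4: the invariants -/

namespace Pool.CS.FORb

open Pool.CS.H91

variable {D : Rd}

theorem reps {α β : Type} (Y : Set α) (f : α → β) (hf : (f '' Y).Finite) :
    ∃ P : Set α, P.Finite ∧ P ⊆ Y ∧ ∀ x ∈ Y, ∃ y ∈ P, f x = f y := by
  classical
  have h : ∀ v ∈ f '' Y, ∃ y, y ∈ Y ∧ f y = v := fun v hv => hv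
  rcases Y.eq_empty_or_nonempty with rfl | ⟨y₀, _⟩
  · exact ⟨∅, Set.finite_empty, subset_rfl, fun x hx => absurd hx (Set.notMem_empty x)⟩
  haveI : Nonempty α := ⟨y₀⟩
  choose! g hg1 hg2 using h
  refine ⟨g '' (f '' Y), hf.image g, ?_, ?_⟩
  · rintro _ ⟨v, hv, rfl⟩
    exact hg1 v hv
  · intro x hx
    have hv : f x ∈ f '' Y := ⟨x, hx, rfl⟩
    exact ⟨g (f x), ⟨f x, hv, rfl⟩, (hg2 _ hv).symm⟩

theorem latP_dvd {δ : D.V} {M : Subgroup D.W} {N E E' : ℕ} (h : LatP δ M N E) (hd : E ∣ E') :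
    LatP δ M N E' := by
  intro T0 hT0 d h1 h2 h3 h4
  exact h T0 hT0 d h1 h2 (fun φ hφ => (Int.natCast_dvd_natCast.2 hd).trans (h3 φ hφ)) h4

theorem finite_par_empty : Finite (D.par (∅ : Set D.S)) := by
  unfold Rd.par
  rw [Set.image_empty, Subgroup.closure_empty]
  infer_instance

theorem yj_empty {x : Set D.V} (h : D.Vx x) : D.YJ (∅ : Set D.S) x := by
  refine ⟨h, fun φ hφ hin => ?_⟩
  exfalso
  apply rt_ne_zero hφ.1
  funext s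
  exact hin s (Set.notMem_empty s)

theorem af_of_sa {u : D.V} (h : D.Sa u) : D.Af u := ⟨1, u, h, (ρ_one u).symm⟩

theorem in_e {K : Set D.S} {s : D.S} (hs : s ∈ K) : D.In K (D.e s) := by
  intro t ht
  apply e_ne
  rintro rfl
  exact ht hs

end Pool.CS.FORb

namespace Pool.CS

open Pool.CS.H91 Pool.CS.FORb

theorem for_thm : Stmt_CLO → Stmt_SAF → Stmt_FIN1 → Stmt_FIN2 → Stmt_FAR1 → Stmt_FAR2 →
    Stmt_ORD → Stmt_ORT → Stmt_THR → Stmt_LAT → Stmt_CSU → Stmt_BAS → Stmt_VX1 → Stmt_NRM →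
    Stmt_FOR := by
  intro hCLO hSAF hFIN1 hFIN2 hFAR1 hFAR2 hORD hORT hTHR hLAT hCSU _ hVX1 _ D K hK N hN M hMn hMf
  classical
  obtain ⟨C, hC0, hC⟩ := hFAR1 D ∅ finite_par_empty
  have hS : {u | D.Sa u}.Finite := hSAF D
  set S₀ : Finset D.V := hS.toFinset with hS₀
  have hSm : ∀ u ∈ S₀, D.Sa u := by
    intro u hu
    rw [hS₀, Set.Finite.mem_toFinset] at hu
    exact hu
  -- directions
  have hA : ∀ u : D.V, ∃ A : Finset D.V, D.Af u → (D.Fd u).Nonempty → D.Dirs u A := by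
    intro u
    by_cases h : D.Af u ∧ (D.Fd u).Nonempty
    · obtain ⟨h1, φ, hφ⟩ := h
      obtain ⟨A, hA⟩ := (hTHR D u h1 φ hφ).2.2.2.2.2.2.2.2.1
      exact ⟨A, fun _ _ => hA⟩
    · exact ⟨∅, fun h1 h2 => absurd ⟨h1, h2⟩ h⟩
  choose AA hAA using hA
  -- the modulus
  have hEE : ∀ u : D.V, ∃ E : ℕ, 0 < E ∧ (D.Af u → LatP u M N E) := by
    intro u
    by_cases h : D.Af u
    · obtain ⟨E, hE, hE'⟩ := hLAT D u h M hMn hMf N hN
      exact ⟨E, hE, fun _ => hE'⟩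
    · exact ⟨1, one_pos, fun h' => absurd h' h⟩
  choose EE hEE0 hEE1 using hEE
  set E : ℕ := ∏ u ∈ S₀, EE u with hEdef
  have hE0 : 0 < E := Finset.prod_pos fun u _ => hEE0 u
  have hE1 : ∀ u ∈ S₀, LatP u M N E := fun u hu =>
    latP_dvd (hEE1 u (af_of_sa (hSm u hu))) (Finset.dvd_prod_of_mem _ hu)
  -- closest chambers
  have hW : ∀ x : Set D.V, ∃ w : D.W, D.Vx x → D.Cls (D.act w x) := by
    intro x
    by_cases h : D.Vx x
    · obtain ⟨w, hw⟩ := hCLO D x h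
      exact ⟨w, fun _ => hw⟩
    · exact ⟨1, fun h' => absurd h' h⟩
  choose ww hww using hW
  -- invariants
  let F : Set D.V → Finset D.V := fun x =>
    S₀.filter fun u => D.Far ∅ C (D.act (ww x) x) u ∧ (D.Fd u).Nonempty
  have hFm : ∀ x u, u ∈ F x ↔ u ∈ S₀ ∧ D.Far ∅ C (D.act (ww x) x) u ∧ (D.Fd u).Nonempty :=
    fun x u => Finset.mem_filter
  let f1 : Set D.V → D.W ⧸ M := fun x => QuotientGroup.mk (ww x)
  let f3 : Set D.V → Set D.V := fun x =>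
    {μ | μ ∈ D.Ps ∧ (∀ u ∈ F x, μ ∉ D.Fd u) ∧ -μ ∈ D.act (ww x) x}
  let f4 : Set D.V → Set (D.S × D.V) := fun x =>
    {p | p.1 ∈ K ∧ p.2 ∈ F x ∧ D.ρ (ww x) (D.e p.1) ∈ D.Fd p.2}
  let f5 : Set D.V → Set (D.S × D.V × D.V) := fun x =>
    {p | p.1 ∈ K ∧ p.2.1 ∈ F x ∧ p.2.2 ∈ AA p.2.1 ∧
      ∃ t : ℝ, D.ρ (ww x) (D.e p.1) = p.2.2 + t • p.2.1}
  let f6 : Set D.V → Set (D.S × D.V) := fun x =>
    {p | p.1 ∈ K ∧ (∀ u ∈ F x, D.ρ (ww x) (D.e p.1) ∉ D.Fd u) ∧ p.2 = D.ρ (ww x) (D.e p.1)}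
  let f7 : Set D.V → Set (D.V × D.V × ℤ) := fun x =>
    {p | p.1 ∈ F x ∧ p.2.1 ∈ AA p.1 ∧ p.2.2 = thr p.1 (D.act (ww x) x) p.2.1 % (E : ℤ)}
  have hmn := (hVX1 D).2.2.2.2.2.2.1
  have hvx : ∀ x, D.YJ K x → D.Vx (D.act (ww x) x) := fun x hx => (hVX1 D).2.1 x hx.1 _
  have hMK : ∀ x, D.YJ K x → ∀ s ∈ K, D.Mn (D.act (ww x) x) (D.ρ (ww x) (D.e s)) :=
    fun x hx s hs => (hmn x hx.1 _ _).1 (hx.2 _ (ps_e s) (in_e hs))
  let U : Set D.V := ⋃ u ∈ S₀, (AA u : Set D.V)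
  have hU : U.Finite := S₀.finite_toSet.biUnion fun u _ => (AA u).finite_toSet
  have hUm : ∀ u ∈ S₀, ∀ α ∈ AA u, α ∈ U := fun u hu α hα =>
    Set.mem_biUnion (x := u) hu hα
  obtain ⟨P, hP1, hP2, hP3⟩ := reps {x | D.YJ K x}
    (fun x => (f1 x, F x, f3 x, f4 x, f5 x, f6 x, f7 x)) (by
      have hfin : ((Set.univ : Set (D.W ⧸ M)) ×ˢ ((S₀.powerset : Finset (Finset D.V)) : Set (Finset D.V)) ×ˢ
          (𝒫 {μ | μ ∈ D.Ps ∧ ∃ x, D.Cls x ∧ -μ ∈ x ∧ ∀ u, D.Sa u → D.Far ∅ C x u → μ ∉ D.Fd u}) ×ˢ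
          (𝒫 ((Set.univ : Set D.S) ×ˢ (S₀ : Set D.V))) ×ˢ
          (𝒫 ((Set.univ : Set D.S) ×ˢ (S₀ : Set D.V) ×ˢ U)) ×ˢ
          (𝒫 ((Set.univ : Set D.S) ×ˢ
            {φ | ∃ x, D.Cls x ∧ D.Mn x φ ∧ ∀ u, D.Sa u → D.Far ∅ C x u → φ ∉ D.Fd u})) ×ˢ
          (𝒫 ((S₀ : Set D.V) ×ˢ U ×ˢ ((Finset.Ico (0 : ℤ) E : Finset ℤ) : Set ℤ)))).Finite := by
        refine Set.finite_univ.prod (S₀.powerset.finite_toSet.prod
          ((hFIN1 D C).powerset.prod ((Set.finite_univ.prod S₀.finite_toSet).powerset.prod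
          ((Set.finite_univ.prod (S₀.finite_toSet.prod hU)).powerset.prod
          ((Set.finite_univ.prod (hFIN2 D C)).powerset.prod
          (S₀.finite_toSet.prod (hU.prod (Finset.finite_toSet _))).powerset)))))
      refine hfin.subset ?_
      rintro _ ⟨x, hx, rfl⟩
      have hcl := hww x hx.1
      refine ⟨Set.mem_univ _, ?_, ?_, ?_, ?_, ?_, ?_⟩
      · exact Finset.mem_coe.2 (Finset.mem_powerset.2 (Finset.filter_subset _ _))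
      · rintro μ ⟨h1, h2, h3⟩
        refine ⟨h1, _, hcl, h3, fun u hu hfar hf => ?_⟩
        refine h2 u ((hFm x u).2 ⟨?_, hfar, μ, hf⟩) hf
        rw [hS₀, Set.Finite.mem_toFinset]
        exact hu
      · rintro p ⟨_, h2, _⟩
        exact ⟨Set.mem_univ _, ((hFm x _).1 h2).1⟩
      · rintro p ⟨_, h2, h3, _⟩
        have h4 := ((hFm x _).1 h2).1
        exact ⟨Set.mem_univ _, h4, hUm _ h4 _ h3⟩
      · rintro p ⟨h1, h2, h3⟩
        refine ⟨Set.mem_univ _, _, hcl, ?_, ?_⟩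
        · rw [h3]
          exact hMK x hx _ h1
        · intro u hu hfar hf
          rw [h3] at hf
          refine h2 u ((hFm x u).2 ⟨?_, hfar, _, hf⟩) hf
          rw [hS₀, Set.Finite.mem_toFinset]
          exact hu
      · rintro p ⟨h1, h2, h3⟩
        have h4 := ((hFm x _).1 h1).1
        refine ⟨h4, hUm _ h4 _ h2, ?_⟩
        rw [h3, Finset.coe_Ico]
        have hE' : (0 : ℤ) < E := by exact_mod_cast hE0
        exact ⟨Int.emod_nonneg _ hE'.ne', Int.emod_lt_of_pos _ hE'⟩)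
  refine ⟨P, hP1, fun y hy => hP2 hy, fun x hx => ?_⟩
  obtain ⟨y, hyP, hxy⟩ := hP3 x hx
  have hy : D.YJ K y := hP2 hyP
  simp only [Prod.mk.injEq] at hxy
  obtain ⟨e1, e2, e3, e4, e5, e6, e7⟩ := hxy
  have hfar : ∀ x, D.YJ K x → ∀ u ∈ F x, D.Far ∅ C (D.act (ww x) x) u := fun x _ u hu =>
    ((hFm x u).1 hu).2.1
  have hCx : ∀ x, D.YJ K x → ∀ u ∈ F x, D.Big (D.act (ww x) x) u ∧ D.Cmp ∅ u ∧
      ∀ φ, D.Mn (D.act (ww x) x) φ → φ ∈ D.Fd u ∨ φ ∈ D.Fp u := fun x hx u hu =>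
    hC _ (yj_empty (hvx x hx)) u (hfar x hx u hu)
  have hFy : ∀ u ∈ F x, u ∈ F y := fun u hu => by rw [← e2]; exact hu
  have hafx : ∀ u ∈ F x, D.Af u := fun u hu => af_of_sa (hSm u ((hFm x u).1 hu).1)
  suffices h : ∃ m ∈ M, m ∈ D.NJ K ∧ D.MR K N (D.act m x) y by
    obtain ⟨m, h1, h2, h3⟩ := h
    exact ⟨m, h1, h2, y, hyP, h3⟩
  refine compare hTHR hVX1 hCSU hORT hORD hK hx hy (ww x) (ww y) (F x) ?_ ?_ ?_ ?_ ?_ ?_ ?_
    ?_ hMn ?_ (E := E) ?_ ?_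
  · intro u hu
    exact ⟨hafx u hu, ((hFm x u).1 hu).2.2, (hCx x hx u hu).1, (hCx y hy u (hFy u hu)).1⟩
  · intro u hu v hv hne
    have h1 := (hORD D u v (hafx u hu) (hafx v hv)).1
    rcases h1.lt_or_eq with h2 | h2
    · exfalso
      obtain ⟨f, hf1, hf2, hf3⟩ := hFAR2 D ∅ _ (hvx x hx) u v (hafx u hu) (hafx v hv)
        (hCx x hx v hv).1 (hCx x hx v hv).2.1 h2
      refine (hfar x hx u hu).2 ⟨f, hf1, hf2, fun φ h3 h4 => ?_⟩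
      have h5 := hf3 φ h3 h4
      linarith
    · exact h2
  · intro s hs u hu
    exact (hCx x hx u hu).2.2 _ (hMK x hx s hs)
  · intro s hs u hu
    exact (hCx y hy u (hFy u hu)).2.2 _ (hMK y hy s hs)
  · intro s hs u hu
    have h1 : (s, u) ∈ f4 x ↔ (s, u) ∈ f4 y := by rw [e4]
    constructor
    · intro h
      exact (h1.1 ⟨hs, hu, h⟩).2.2
    · intro h
      exact (h1.2 ⟨hs, hFy u hu, h⟩).2.2
  · intro s hs u hu hf
    obtain ⟨α, ⟨hα, t, ht⟩, _⟩ := (hAA u (hafx u hu) ⟨_, hf⟩).2 _ hf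
    have h1 : (s, u, α) ∈ f5 x := ⟨hs, hu, hα, t, ht⟩
    rw [e5] at h1
    obtain ⟨_, _, _, t', ht'⟩ := h1
    refine ⟨t' - t, ?_⟩
    change D.ρ (ww y) (D.e s) = α + t' • u at ht'
    rw [ht', ht]
    module
  · intro s hs h
    have h1 : (s, D.ρ (ww x) (D.e s)) ∈ f6 x := ⟨hs, h, rfl⟩
    rw [e6] at h1
    exact h1.2.2
  · intro μ hμ h
    have h1 : μ ∈ f3 x ↔ μ ∈ f3 y := by rw [e3]
    constructor
    · intro h2
      exact (h1.1 ⟨hμ, h, h2⟩).2.2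
    · intro h2
      exact (h1.2 ⟨hμ, fun u hu => h u (by rw [e2]; exact hu), h2⟩).2.2
  · exact QuotientGroup.eq.1 e1.symm
  · intro u hu
    exact hE1 u ((hFm x u).1 hu).1
  · intro u hu φ hφ
    obtain ⟨α, ⟨hα, t, rfl⟩, _⟩ := (hAA u (hafx u hu) ⟨_, hφ⟩).2 _ hφ
    have hα' : α ∈ D.Fd u := (hAA u (hafx u hu) ⟨_, hφ⟩).1 α hα
    rw [dif_dir hTHR (hafx u hu) (hvx x hx) (hvx y hy) hα' t hφ]
    have h1 : (u, α, thr u (D.act (ww x) x) α % (E : ℤ)) ∈ f7 x := ⟨hu, hα, rfl⟩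
    rw [e7] at h1
    have h2 : thr u (D.act (ww x) x) α % (E : ℤ) = thr u (D.act (ww y) y) α % (E : ℤ) := h1.2.2
    exact Int.ModEq.dvd h2

end Pool.CS
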