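import Pool.Agent.Work.MP_64ea0f_cs.InterfaceD

set_option autoImplicit false

/-! # Block GOOD of MP_64ea0f_cs (helper48) -/

namespace Pool.CS

namespace H48

theorem good_empty {Λ : Type} (G : SimpleGraph Λ) (F : Type) [AddCommGroup F] (n : ℕ) :
    GoodA F G ∅ n := by
  intro V _ L hL φ _ _
  refine ⟨V, inferInstance, L, id, hL, Function.surjective_id, fun _ _ => rfl, fun _ _ => 0,
    ?_, ?_⟩
  · intro v x l _ _ s _
    rfl
  · intro v l hl hn
    exfalso
    match l, hl, hn with
    | x :: y :: l, hl, _ =>
      have h1 : x ⊂ y := hl.ss List.mem_cons_self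
      have h2 : y ⊆ ∅ := (hl.2 y (List.mem_cons_of_mem _ List.mem_cons_self)).2
      exact (h1.trans_subset h2).2 (Set.empty_subset x)

end H48

theorem good_thm : Stmt_GDO → Stmt_GSE → Stmt_GOOD := by
  intro hGDO hGSE Λ _ G F _ _ A n
  induction h : A.ncard using Nat.strong_induction_on generalizing A n with
  | _ k ih =>
    cases n with
    | zero => exact hGDO Λ G A F
    | succ n =>
      rcases A.eq_empty_or_nonempty with rfl | ⟨s, hs⟩
      · exact H48.good_empty G F (n + 1)
      · have h1 : (A \ {s}).ncard < k := by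
          rw [← h]
          exact Set.ncard_diff_singleton_lt_of_mem hs (Set.toFinite A)
        have h2 : {b ∈ A | G.Adj s b}.ncard < k := by
          refine lt_of_le_of_lt (Set.ncard_le_ncard ?_ (Set.toFinite _)) h1
          rintro b ⟨hb1, hb2⟩
          refine ⟨hb1, fun hb3 => ?_⟩
          rw [Set.mem_singleton_iff] at hb3
          rw [hb3] at hb2
          exact G.loopless.irrefl s hb2
        exact hGSE Λ G A s F n hs (ih _ h1 (A \ {s}) (n + 1) rfl) (ih _ h2 _ n rfl)

end Pool.CS
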