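import Pool.Agent.Work.MP_64ea0f_cs.InterfaceG2b
import Pool.Agent.Work.MP_64ea0f_cs_helper91.FAC

set_option autoImplicit false

/-! # Block FOR of MP_64ea0f_cs (helper48), part 1: thresholds, functionals, one affine vector -/

namespace Pool.CS.FORb

open Pool.CS.H91

variable {D : Rd}

/-! ## Thresholds -/

theorem af_ne_zero {δ : D.V} (h : D.Af δ) : δ ≠ 0 := by
  obtain ⟨g, u, hu, rfl⟩ := h
  intro h0
  have h1 : u = 0 := by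
    have := ρ_inv_ρ g u
    rw [h0, map_zero] at this
    exact this.symm
  have h2 : D.ht u = 1 := hu.2.2.1
  rw [h1] at h2
  have h3 : D.ht (0 : D.V) = 0 := by
    unfold Rd.ht
    simp
  rw [h3] at h2
  exact zero_ne_one h2

open Classical in
/-- the threshold of `x` in the direction of `φ` -/
noncomputable def thr (δ : D.V) (x : Set D.V) (φ : D.V) : ℤ :=
  if h : ∃ j : ℤ, ∀ i : ℤ, φ + ((i : ℝ) * D.cst δ φ) • δ ∈ x ↔ j ≤ i then h.choose else 0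

theorem thr_spec (hTHR : Stmt_THR) {δ : D.V} (ha : D.Af δ) {x : Set D.V} (hx : D.Vx x) {φ : D.V}
    (hφ : φ ∈ D.Fd δ) (i : ℤ) : φ + ((i : ℝ) * D.cst δ φ) • δ ∈ x ↔ thr δ x φ ≤ i := by
  have h := (hTHR D δ ha φ hφ).2.2.2.2.2.2.1 x hx
  unfold thr
  rw [dif_pos h]
  exact h.choose_spec i

theorem thr_unique (hTHR : Stmt_THR) {δ : D.V} (ha : D.Af δ) {x : Set D.V} (hx : D.Vx x) {φ : D.V}
    (hφ : φ ∈ D.Fd δ) {j : ℤ} (h : ∀ i : ℤ, φ + ((i : ℝ) * D.cst δ φ) • δ ∈ x ↔ j ≤ i) :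
    thr δ x φ = j := by
  have h1 := thr_spec hTHR ha hx hφ
  apply le_antisymm
  · exact (h1 j).1 ((h j).2 le_rfl)
  · exact (h _).1 ((h1 _).2 le_rfl)

theorem cst_pos (hTHR : Stmt_THR) {δ : D.V} (ha : D.Af δ) {φ : D.V} (hφ : φ ∈ D.Fd δ) :
    0 < D.cst δ φ := (hTHR D δ ha φ hφ).1

theorem fd_neg (hTHR : Stmt_THR) {δ : D.V} (ha : D.Af δ) {φ : D.V} (hφ : φ ∈ D.Fd δ) :
    -φ ∈ D.Fd δ := (hTHR D δ ha φ hφ).2.2.2.1

theorem cst_neg (hTHR : Stmt_THR) {δ : D.V} (ha : D.Af δ) {φ : D.V} (hφ : φ ∈ D.Fd δ) :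
    D.cst δ (-φ) = D.cst δ φ := (hTHR D δ ha φ hφ).2.2.2.2.1

theorem fd_add (hTHR : Stmt_THR) {δ : D.V} (ha : D.Af δ) {φ : D.V} (hφ : φ ∈ D.Fd δ) {t : ℝ}
    (h : φ + t • δ ∈ D.Rt) : φ + t • δ ∈ D.Fd δ := ((hTHR D δ ha φ hφ).2.2.1 t h).2

theorem cst_add (hTHR : Stmt_THR) {δ : D.V} (ha : D.Af δ) {φ : D.V} (hφ : φ ∈ D.Fd δ) {t : ℝ}
    (h : φ + t • δ ∈ D.Rt) : D.cst δ (φ + t • δ) = D.cst δ φ :=
  ((hTHR D δ ha φ hφ).2.2.1 t h).1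

theorem int_of_rt (hTHR : Stmt_THR) {δ : D.V} (ha : D.Af δ) {φ : D.V} (hφ : φ ∈ D.Fd δ) {t : ℝ}
    (h : φ + t • δ ∈ D.Rt) : ∃ i : ℤ, t = i * D.cst δ φ := ((hTHR D δ ha φ hφ).2.1 t).1 h

theorem rt_of_int (hTHR : Stmt_THR) {δ : D.V} (ha : D.Af δ) {φ : D.V} (hφ : φ ∈ D.Fd δ) (i : ℤ) :
    φ + ((i : ℝ) * D.cst δ φ) • δ ∈ D.Rt := ((hTHR D δ ha φ hφ).2.1 _).2 ⟨i, rfl⟩

theorem thr_shift (hTHR : Stmt_THR) {δ : D.V} (ha : D.Af δ) {x : Set D.V} (hx : D.Vx x) {φ : D.V}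
    (hφ : φ ∈ D.Fd δ) (i₀ : ℤ) :
    thr δ x (φ + ((i₀ : ℝ) * D.cst δ φ) • δ) = thr δ x φ - i₀ := by
  have hr := rt_of_int hTHR ha hφ i₀
  apply thr_unique hTHR ha hx (fd_add hTHR ha hφ hr)
  intro i
  rw [cst_add hTHR ha hφ hr]
  have e : φ + ((i₀ : ℝ) * D.cst δ φ) • δ + ((i : ℝ) * D.cst δ φ) • δ =
      φ + (((i₀ + i : ℤ) : ℝ) * D.cst δ φ) • δ := by
    push_cast
    module
  rw [e, thr_spec hTHR ha hx hφ]
  omega

theorem mem_iff_not_neg (hVX1 : Stmt_VX1) {x : Set D.V} (hx : D.Vx x) {φ : D.V} (h : φ ∈ D.Rt) :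
    φ ∈ x ↔ -φ ∉ x := by
  constructor
  · exact fun h1 => (hVX1 D).2.2.2.2.2.2.2.2.1 x hx φ h1
  · intro h1
    rcases hx.tot φ h with h2 | h2
    · exact h2
    · exact absurd h2 h1

theorem thr_neg (hTHR : Stmt_THR) (hVX1 : Stmt_VX1) {δ : D.V} (ha : D.Af δ) {x : Set D.V}
    (hx : D.Vx x) {φ : D.V} (hφ : φ ∈ D.Fd δ) : thr δ x (-φ) = 1 - thr δ x φ := by
  apply thr_unique hTHR ha hx (fd_neg hTHR ha hφ)
  intro i
  rw [cst_neg hTHR ha hφ]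
  have e : -φ + ((i : ℝ) * D.cst δ φ) • δ = -(φ + (((-i : ℤ) : ℝ) * D.cst δ φ) • δ) := by
    push_cast
    module
  have hr := rt_of_int hTHR ha hφ (-i)
  rw [e, mem_iff_not_neg hVX1 hx (rt_neg hr), neg_neg, thr_spec hTHR ha hx hφ]
  omega

theorem thr_mn (hTHR : Stmt_THR) {δ : D.V} (ha : D.Af δ) {x : Set D.V} (hx : D.Vx x) {φ : D.V}
    (hφ : φ ∈ D.Fd δ) (hm : D.Mn x φ) : thr δ x φ = 0 := by
  have h1 := thr_spec hTHR ha hx hφ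
  have hc := cst_pos hTHR ha hφ
  have h2 : thr δ x φ ≤ 0 := by
    rw [← h1 0]
    simpa using hm.1
  have h3 : ¬ thr δ x φ ≤ -1 := by
    rw [← h1 (-1)]
    intro h4
    have hr := rt_of_int hTHR ha hφ (-1)
    have hf := fd_add hTHR ha hφ hr
    have h5 := (hTHR D δ ha _ hf).2.2.2.2.2.1 (D.cst δ φ) hc.le
    have e : φ + (((-1 : ℤ) : ℝ) * D.cst δ φ) • δ + D.cst δ φ • δ = φ := by
      push_cast
      module
    rw [e] at h5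
    have h6 := hm.2 _ h4 (h5 hφ.1)
    have h7 : (((-1 : ℤ) : ℝ) * D.cst δ φ) • δ = 0 := by
      have := h6
      rwa [add_eq_left] at this
    rw [smul_eq_zero] at h7
    rcases h7 with h7 | h7
    · push_cast at h7
      linarith
    · exact af_ne_zero ha h7
  omega

/-- the difference of two vertices in the directions of `δ` -/
noncomputable def dif (δ : D.V) (x y : Set D.V) (φ : D.V) : ℤ := thr δ y φ - thr δ x φ

theorem dif_spec (hTHR : Stmt_THR) {δ : D.V} (ha : D.Af δ) {x y : Set D.V} (hx : D.Vx x)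
    (hy : D.Vx y) {φ : D.V} (hφ : φ ∈ D.Fd δ) :
    φ ∈ y ↔ φ - ((dif δ x y φ : ℝ) * D.cst δ φ) • δ ∈ x := by
  have h1 := thr_spec hTHR ha hy hφ 0
  have h2 := thr_spec hTHR ha hx hφ (-dif δ x y φ)
  have e : φ - ((dif δ x y φ : ℝ) * D.cst δ φ) • δ =
      φ + (((-dif δ x y φ : ℤ) : ℝ) * D.cst δ φ) • δ := by
    push_cast
    module
  have e2 : φ + (((0 : ℤ) : ℝ) * D.cst δ φ) • δ = φ := by simp
  rw [e2] at h1
  rw [h1, e, h2]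
  unfold dif
  omega

theorem dif_dir (hTHR : Stmt_THR) {δ : D.V} (ha : D.Af δ) {x y : Set D.V} (hx : D.Vx x)
    (hy : D.Vx y) {φ : D.V} (hφ : φ ∈ D.Fd δ) (t : ℝ) (ht : φ + t • δ ∈ D.Fd δ) :
    dif δ x y (φ + t • δ) = dif δ x y φ := by
  obtain ⟨i, rfl⟩ := int_of_rt hTHR ha hφ ht.1
  unfold dif
  rw [thr_shift hTHR ha hx hφ, thr_shift hTHR ha hy hφ]
  ring

theorem dif_odd (hTHR : Stmt_THR) (hVX1 : Stmt_VX1) {δ : D.V} (ha : D.Af δ) {x y : Set D.V}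
    (hx : D.Vx x) (hy : D.Vx y) {φ : D.V} (hφ : φ ∈ D.Fd δ) :
    dif δ x y (-φ) = -dif δ x y φ := by
  unfold dif
  rw [thr_neg hTHR hVX1 ha hx hφ, thr_neg hTHR hVX1 ha hy hφ]
  ring

/-- two thresholds in the same direction -/
theorem dif_eq (hTHR : Stmt_THR) {δ : D.V} (ha : D.Af δ) {x y : Set D.V} (hx : D.Vx x)
    (hy : D.Vx y) {φ : D.V} (hφ : φ ∈ D.Fd δ) {t : ℝ} (h1 : D.Mn x φ) (h2 : D.Mn y (φ + t • δ)) :
    (dif δ x y φ : ℝ) * D.cst δ φ = t := by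
  have hr : φ + t • δ ∈ D.Rt := hy.sub h2.1
  obtain ⟨i, rfl⟩ := int_of_rt hTHR ha hφ hr
  have h3 := thr_mn hTHR ha hx hφ h1
  have h4 := thr_mn hTHR ha hy (fd_add hTHR ha hφ hr) h2
  rw [thr_shift hTHR ha hy hφ] at h4
  unfold dif
  rw [h3]
  have h5 : thr δ y φ = i := by omega
  rw [h5]
  push_cast
  ring

/-! ## Functionals -/

theorem in_par_fix {K : Set D.S} {u : D.V} (hB : ∀ s ∈ K, D.B (D.e s) u = 0) {g : D.W}
    (hg : g ∈ D.par K) : D.ρ g u = u := by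
  unfold Rd.par at hg
  induction hg using Subgroup.closure_induction with
  | mem x hx =>
    obtain ⟨s, hs, rfl⟩ := hx
    rw [ρ_σ, B_symm, hB s hs]
    simp
  | one => rw [ρ_one]
  | mul x y _ _ hx hy => rw [ρ_mul, hy, hx]
  | inv x _ hx =>
    have := ρ_inv_ρ x u
    rw [hx] at this
    exact this

theorem avg {K : Set D.S} (hK : Finite (D.par K)) (w : D.W) {u : D.V} (hu : u ≠ 0)
    (hB : ∀ s ∈ K, D.B (D.ρ w (D.e s)) u = 0) :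
    ∃ ψ : D.V →ₗ[ℝ] ℝ, ψ u = 1 ∧ ∀ s ∈ K, ψ (D.ρ w (D.e s)) = 0 := by
  set u₀ : D.V := D.ρ w⁻¹ u with hu₀
  have h0 : u₀ ≠ 0 := by
    intro h
    apply hu
    rw [← ρ_ρ_inv w u, ← hu₀, h, map_zero]
  obtain ⟨s₀, hs₀⟩ : ∃ s₀, u₀ s₀ ≠ 0 := by
    by_contra h
    push Not at h
    exact h0 (funext h)
  have hB0 : ∀ s ∈ K, D.B (D.e s) u₀ = 0 := by
    intro s hs
    rw [hu₀, B_ρ_inv']
    exact hB s hs
  let π₀ : D.V →ₗ[ℝ] ℝ := (u₀ s₀)⁻¹ • LinearMap.proj s₀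
  have hπ : π₀ u₀ = 1 := by
    change (u₀ s₀)⁻¹ * u₀ s₀ = 1
    exact inv_mul_cancel₀ hs₀
  haveI : Fintype (D.par K) := Fintype.ofFinite _
  let n : ℝ := Fintype.card (D.par K)
  have hn : n ≠ 0 := by
    change ((Fintype.card (D.par K) : ℕ) : ℝ) ≠ 0
    exact Nat.cast_ne_zero.2 Fintype.card_ne_zero
  let Ψ : D.V →ₗ[ℝ] ℝ := n⁻¹ • ∑ g : D.par K, π₀ ∘ₗ D.ρ g.1
  have hΨ : ∀ v, Ψ v = n⁻¹ * ∑ g : D.par K, π₀ (D.ρ g.1 v) := by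
    intro v
    change n⁻¹ • ((∑ g : D.par K, π₀ ∘ₗ D.ρ g.1) v) = _
    rw [LinearMap.sum_apply]
    rfl
  have h1 : Ψ u₀ = 1 := by
    rw [hΨ]
    have : ∀ g : D.par K, π₀ (D.ρ g.1 u₀) = 1 := by
      intro g
      rw [in_par_fix hB0 g.2, hπ]
    rw [Finset.sum_congr rfl fun g _ => this g, Finset.sum_const, Finset.card_univ, nsmul_eq_mul,
      mul_one]
    exact inv_mul_cancel₀ hn
  have h2 : ∀ (h : D.par K) (v : D.V), Ψ (D.ρ h.1 v) = Ψ v := by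
    intro h v
    rw [hΨ, hΨ]
    congr 1
    refine Fintype.sum_equiv (Equiv.mulRight h) _ _ fun g => ?_
    change π₀ (D.ρ g.1 (D.ρ h.1 v)) = π₀ (D.ρ (g.1 * h.1) v)
    rw [ρ_mul]
  have h3 : ∀ s ∈ K, Ψ (D.e s) = 0 := by
    intro s hs
    have hm : D.σ s ∈ D.par K := Subgroup.subset_closure ⟨s, hs, rfl⟩
    have h4 := h2 ⟨D.σ s, hm⟩ (D.e s)
    change Ψ (D.ρ (D.σ s) (D.e s)) = _ at h4
    rw [ρ_σ_e, map_neg] at h4
    linarith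
  refine ⟨Ψ ∘ₗ D.ρ w⁻¹, ?_, ?_⟩
  · change Ψ (D.ρ w⁻¹ u) = 1
    exact h1
  · intro s hs
    change Ψ (D.ρ w⁻¹ (D.ρ w (D.e s))) = 0
    rw [ρ_inv_ρ]
    exact h3 s hs

/-- a vector supported in `K` is a combination of the `e s`, `s ∈ K` -/
theorem map_in {K : Set D.S} {φ : D.V} (h : D.In K φ) (f g : D.V →ₗ[ℝ] D.V)
    (hfg : ∀ s ∈ K, f (D.e s) = g (D.e s)) : f φ = g φ := by
  have e := eq_sum_e φ
  rw [e, map_sum, map_sum]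
  refine Finset.sum_congr rfl fun s _ => ?_
  rw [map_smul, map_smul]
  by_cases hs : s ∈ K
  · rw [hfg s hs]
  · rw [h s hs, zero_smul, zero_smul]

theorem B_in {K : Set D.S} {φ v : D.V} (h : D.In K φ) (hv : ∀ s ∈ K, D.B v (D.e s) = 0) :
    D.B v φ = 0 := by
  rw [B_expand]
  refine Finset.sum_eq_zero fun s _ => ?_
  by_cases hs : s ∈ K
  · rw [hv s hs, mul_zero]
  · rw [h s hs, zero_mul]

end Pool.CS.FORb
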