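import Pool.Agent.Work.MP_64ea0f_cs_helper48.FOR1

set_option autoImplicit false

/-! # Block FOR of MP_64ea0f_cs (helper48), part 2: one affine vector -/

namespace Pool.CS.FORb

open Pool.CS.H91

variable {D : Rd}

/-- the conclusion of LAT for `δ`, `M`, `N`, `E` -/
def LatP (δ : D.V) (M : Subgroup D.W) (N E : ℕ) : Prop :=
  ∀ T0 ⊆ D.Fd δ, ∀ d : D.V → ℤ, (∀ φ ∈ D.Fd δ, ∀ t : ℝ, φ + t • δ ∈ D.Fd δ → d (φ + t • δ) = d φ) →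
      (∀ φ ∈ D.Fd δ, d (-φ) = -d φ) → (∀ φ ∈ D.Fd δ, (E : ℤ) ∣ d φ) →
      (∃ θ : D.V →ₗ[ℝ] ℝ, θ δ = 0 ∧ ∀ φ ∈ T0, (d φ : ℝ) * D.cst δ φ = θ φ) →
      ∃ t ∈ M, D.ρ t δ = δ ∧ (∀ μ ∈ D.Fp δ, D.ρ t μ = μ) ∧ ∃ χ : D.V →ₗ[ℝ] ℝ, χ δ = 0 ∧
        (∀ φ ∈ D.Fd δ, D.ρ t φ = φ + χ φ • δ) ∧ ∃ ν : D.V → ℤ,
          (∀ φ ∈ D.Fd δ, χ φ + ν φ * D.cst δ φ = d φ * D.cst δ φ) ∧
          (∀ φ ∈ D.Fd δ, ∀ t : ℝ, φ + t • δ ∈ D.Fd δ → ν (φ + t • δ) = ν φ) ∧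
          (∀ φ ∈ D.Fd δ, ν (-φ) = -ν φ) ∧ (∀ φ ∈ D.Fd δ, (N : ℤ) ∣ ν φ) ∧ (∀ φ ∈ T0, ν φ = 0) ∧
          (∀ A, D.Dirs δ A → ∀ χ' : D.V →ₗ[ℝ] ℝ, χ' δ = 0 → (∀ φ ∈ T0, χ' φ = 0) →
            ∑ α ∈ A, (ν α : ℝ) * χ' α / D.cst δ α = 0)

/-- two vertices and two chambers, compared at the affine vector `u` -/
structure Cpr (K : Set D.S) (x y : Set D.V) (wx wy : D.W) (u : D.V) : Prop where
  af : D.Af u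
  vx : D.Vx x
  vy : D.Vx y
  mx : ∀ φ ∈ D.Ps, D.In K φ → D.Mn x (D.ρ wx φ)
  my : ∀ φ ∈ D.Ps, D.In K φ → D.Mn y (D.ρ wy φ)
  fx : ∀ s ∈ K, D.ρ wx (D.e s) ∈ D.Fd u ∨ D.ρ wx (D.e s) ∈ D.Fp u
  fy : ∀ s ∈ K, D.ρ wy (D.e s) ∈ D.Fd u ∨ D.ρ wy (D.e s) ∈ D.Fp u
  iff : ∀ s ∈ K, D.ρ wx (D.e s) ∈ D.Fd u ↔ D.ρ wy (D.e s) ∈ D.Fd u
  dir : ∀ s ∈ K, D.ρ wx (D.e s) ∈ D.Fd u → ∃ τ : ℝ, D.ρ wy (D.e s) = D.ρ wx (D.e s) + τ • u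

namespace Cpr

variable {K : Set D.S} {x y : Set D.V} {wx wy : D.W} {u : D.V}

theorem symm (h : Cpr K x y wx wy u) : Cpr K y x wy wx u where
  af := h.af
  vx := h.vy
  vy := h.vx
  mx := h.my
  my := h.mx
  fx := h.fy
  fy := h.fx
  iff := fun s hs => (h.iff s hs).symm
  dir := by
    intro s hs h1
    obtain ⟨τ, hτ⟩ := h.dir s hs ((h.iff s hs).2 h1)
    refine ⟨-τ, ?_⟩
    rw [hτ]
    module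

/-- the part of `K` at `u` -/
def KU (_ : Cpr K x y wx wy u) : Set D.S := {s | s ∈ K ∧ D.ρ wx (D.e s) ∈ D.Fd u}

theorem supp (hCSU : Stmt_CSU) (hORT : Stmt_ORT) (h : Cpr K x y wx wy u) {φ : D.V}
    (hφ : φ ∈ D.Rt) (hK : D.In K φ) (hf : D.ρ wx φ ∈ D.Fd u) : D.In h.KU φ := by
  have hort := (hORT D).1 u h.af
  have hk : ∀ s ∈ h.KU, ∀ t ∈ K \ h.KU, D.k s t = 0 := by
    intro s hs t ht
    have h1 : D.ρ wx (D.e t) ∈ D.Fp u := by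
      rcases h.fx t ht.1 with h2 | h2
      · exact absurd ⟨ht.1, h2⟩ ht.2
      · exact h2
    rw [← B_e, ← B_ρ wx, B_symm]
    exact hort.2.1 _ h1 _ hs.2
  have hU : h.KU ∪ (K \ h.KU) = K := Set.union_diff_cancel fun s hs => hs.1
  rcases hCSU D h.KU (K \ h.KU) hk φ hφ (by rw [hU]; exact hK) with h1 | h1
  · exact h1
  · exfalso
    have h2 : D.B φ φ = 0 := by
      apply B_in h1
      intro t ht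
      have h3 : D.ρ wx (D.e t) ∈ D.Fp u := by
        rcases h.fx t ht.1 with h2 | h2
        · exact absurd ⟨ht.1, h2⟩ ht.2
        · exact h2
      rw [← B_ρ wx, B_symm]
      exact hort.2.1 _ h3 _ hf
    rw [B_rt hφ] at h2
    exact one_ne_zero h2

theorem theta (hORT : Stmt_ORT) (hK : Finite (D.par K)) (h : Cpr K x y wx wy u) :
    ∃ θ : D.V →ₗ[ℝ] ℝ, θ u = 0 ∧ ∀ φ, D.In h.KU φ → D.ρ wy φ = D.ρ wx φ + θ (D.ρ wx φ) • u := by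
  have hort := (hORT D).1 u h.af
  have hB : ∀ s ∈ K, D.B (D.ρ wx (D.e s)) u = 0 := by
    intro s hs
    rcases h.fx s hs with h1 | h1
    · exact hort.1 _ h1
    · exact h1.2.1
  obtain ⟨ψ, hψ1, hψ2⟩ := avg hK wx (af_ne_zero h.af) hB
  let θ₀ : D.V →ₗ[ℝ] ℝ := ψ ∘ₗ D.ρ (wy * wx⁻¹) - ψ
  have hθ₀ : ∀ v, θ₀ v = ψ (D.ρ (wy * wx⁻¹) v) - ψ v := fun v => rfl
  let θ : D.V →ₗ[ℝ] ℝ := θ₀ - (θ₀ u) • ψ
  have hθ : ∀ v, θ v = θ₀ v - θ₀ u * ψ v := fun v => rfl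
  refine ⟨θ, ?_, ?_⟩
  · rw [hθ, hψ1]
    ring
  · intro φ hφ
    refine map_in hφ (D.ρ wy) (D.ρ wx + (θ ∘ₗ D.ρ wx).smulRight u) ?_
    intro s hs
    change D.ρ wy (D.e s) = D.ρ wx (D.e s) + θ (D.ρ wx (D.e s)) • u
    obtain ⟨τ, hτ⟩ := h.dir s hs.1 hs.2
    have h1 : θ (D.ρ wx (D.e s)) = τ := by
      rw [hθ, hψ2 s hs.1, hθ₀, hψ2 s hs.1, ρ_mul, ρ_inv_ρ, hτ, map_add, map_smul, hψ1,
        hψ2 s hs.1]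
      simp
    rw [h1, hτ]

theorem theta_dif (hTHR : Stmt_THR) (hVX1 : Stmt_VX1) (hCSU : Stmt_CSU) (hORT : Stmt_ORT)
    (h : Cpr K x y wx wy u) {θ : D.V →ₗ[ℝ] ℝ}
    (hθ : ∀ φ, D.In h.KU φ → D.ρ wy φ = D.ρ wx φ + θ (D.ρ wx φ) • u) {φ : D.V} (hφ : φ ∈ D.Rt)
    (hK : D.In K φ) (hf : D.ρ wx φ ∈ D.Fd u) :
    (dif u x y (D.ρ wx φ) : ℝ) * D.cst u (D.ρ wx φ) = θ (D.ρ wx φ) ∧ D.ρ wy φ ∈ D.Fd u := by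
  have h0 := hθ φ (h.supp hCSU hORT hφ hK hf)
  have hy : D.ρ wx φ + θ (D.ρ wx φ) • u ∈ D.Rt := by
    rw [← h0]
    exact rt_ρ hφ wy
  constructor
  · rcases ps_or hφ with hp | hp
    · apply dif_eq hTHR h.af h.vx h.vy hf (h.mx φ hp hK)
      rw [← h0]
      exact h.my φ hp hK
    · have hK' : D.In K (-φ) := fun s hs => by
        rw [Pi.neg_apply, hK s hs, neg_zero]
      have hf' : D.ρ wx (-φ) ∈ D.Fd u := by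
        rw [map_neg]
        exact fd_neg hTHR h.af hf
      have h0' := hθ (-φ) (h.supp hCSU hORT (rt_neg hφ) hK' hf')
      have h1 := dif_eq hTHR h.af h.vx h.vy hf' (t := θ (D.ρ wx (-φ))) (h.mx _ hp hK') (by
        rw [← h0']
        exact h.my _ hp hK')
      rw [map_neg, dif_odd hTHR hVX1 h.af h.vx h.vy hf, cst_neg hTHR h.af hf, map_neg] at h1
      push_cast at h1
      linarith
  · rw [h0]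
    exact fd_add hTHR h.af hf hy

/-- one affine vector -/
theorem one (hTHR : Stmt_THR) (hVX1 : Stmt_VX1) (hCSU : Stmt_CSU) (hORT : Stmt_ORT)
    (hK : Finite (D.par K)) (h : Cpr K x y wx wy u) {M : Subgroup D.W} {N E : ℕ}
    (hE : LatP u M N E) (hd : ∀ φ ∈ D.Fd u, (E : ℤ) ∣ dif u x y φ) :
    ∃ t ∈ M, ∃ χ : D.V →ₗ[ℝ] ℝ, ∃ ν : D.V → ℤ, χ u = 0 ∧ (∀ μ ∈ D.Fp u, D.ρ t μ = μ) ∧
      (∀ φ ∈ D.Fd u, D.ρ t φ = φ + χ φ • u) ∧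
      (∀ φ ∈ D.Fd u, χ φ + ν φ * D.cst u φ = dif u x y φ * D.cst u φ) ∧
      (∀ φ ∈ D.Fd u, ∀ t : ℝ, φ + t • u ∈ D.Fd u → ν (φ + t • u) = ν φ) ∧
      (∀ φ ∈ D.Fd u, ν (-φ) = -ν φ) ∧ (∀ φ ∈ D.Fd u, (N : ℤ) ∣ ν φ) ∧
      (∀ φ ∈ D.Rt, D.In K φ → D.ρ wy φ ∈ D.Fd u → ν (D.ρ wy φ) = 0) ∧
      (∀ A, D.Dirs u A → ∀ χ' : D.V →ₗ[ℝ] ℝ, χ' u = 0 →
        (∀ φ ∈ D.Rt, D.In K φ → D.ρ wy φ ∈ D.Fd u → χ' (D.ρ wy φ) = 0) →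
        ∑ α ∈ A, (ν α : ℝ) * χ' α / D.cst u α = 0) ∧
      (∀ s ∈ K, D.ρ wx (D.e s) ∈ D.Fd u → D.ρ t (D.ρ wx (D.e s)) = D.ρ wy (D.e s)) := by
  obtain ⟨θ, hθ0, hθ⟩ := h.theta hORT hK
  obtain ⟨θ', hθ0', hθ'⟩ := h.symm.theta hORT hK
  have hin : ∀ s ∈ K, D.In K (D.e s) := by
    intro s hs t ht
    apply e_ne
    rintro rfl
    exact ht hs
  obtain ⟨t, htM, ht1, ht2, χ, hχ0, hχ, ν, h1, h2, h3, h4, h5, h6⟩ :=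
    hE {ψ | ψ ∈ D.Fd u ∧ ∃ φ ∈ D.Rt, D.In K φ ∧ ψ = D.ρ wx φ} (fun ψ hψ => hψ.1) (dif u x y)
      (fun φ hφ t ht => dif_dir hTHR h.af h.vx h.vy hφ t ht)
      (fun φ hφ => dif_odd hTHR hVX1 h.af h.vx h.vy hφ) hd
      ⟨θ, hθ0, by
        rintro ψ ⟨hψ, φ, hφ, hKφ, rfl⟩
        exact (h.theta_dif hTHR hVX1 hCSU hORT hθ hφ hKφ hψ).1⟩
  refine ⟨t, htM, χ, ν, hχ0, ht2, hχ, h1, h2, h3, h4, ?_, ?_, ?_⟩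
  · intro φ hφ hKφ hf
    have hx := (h.symm.theta_dif hTHR hVX1 hCSU hORT hθ' hφ hKφ hf).2
    have h7 := hθ φ (h.supp hCSU hORT hφ hKφ hx)
    rw [h7, h2 _ hx _ (by rw [← h7]; exact hf)]
    exact h5 _ ⟨hx, φ, hφ, hKφ, rfl⟩
  · intro A hA χ' hχ' hz
    refine h6 A hA χ' hχ' ?_
    rintro ψ ⟨hψ, φ, hφ, hKφ, rfl⟩
    have h7 := hθ φ (h.supp hCSU hORT hφ hKφ hψ)
    have h8 := hz φ hφ hKφ (h.theta_dif hTHR hVX1 hCSU hORT hθ hφ hKφ hψ).2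
    rw [h7, map_add, map_smul, hχ', smul_zero, add_zero] at h8
    exact h8
  · intro s hs hf
    have h7 := hθ (D.e s) (h.supp hCSU hORT (rt_e s) (hin s hs) hf)
    have h8 := (h.theta_dif hTHR hVX1 hCSU hORT hθ (rt_e s) (hin s hs) hf).1
    have h9 := h5 _ ⟨hf, D.e s, rt_e s, hin s hs, rfl⟩
    have h10 := h1 _ hf
    rw [h9, h8] at h10
    rw [hχ _ hf, h7]
    congr 2
    simpa using h10

end Cpr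

end Pool.CS.FORb
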