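import Pool.Agent.Work.MP_64ea0f_cs_helper48.FOR2

set_option autoImplicit false

/-! # Block FOR of MP_64ea0f_cs (helper48), part 3: the comparison -/

namespace Pool.CS.FORb

open Pool.CS.H91

variable {D : Rd}

theorem fd_ρ (g : D.W) (δ φ : D.V) : φ ∈ D.Fd (D.ρ g δ) ↔ D.ρ g⁻¹ φ ∈ D.Fd δ := by
  have key : ∀ t : ℝ, φ + t • D.ρ g δ ∈ D.Rt ↔ D.ρ g⁻¹ φ + t • δ ∈ D.Rt := by
    intro t
    rw [← rt_ρ_iff g⁻¹, map_add, map_smul, ρ_inv_ρ]
  constructor
  · rintro ⟨h1, t, ht, h2⟩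
    exact ⟨rt_ρ h1 _, t, ht, (key t).1 h2⟩
  · rintro ⟨h1, t, ht, h2⟩
    exact ⟨(rt_ρ_iff g⁻¹).1 h1, t, ht, (key t).2 h2⟩

theorem cst_ρ (g : D.W) (δ φ : D.V) : D.cst (D.ρ g δ) (D.ρ g φ) = D.cst δ φ := by
  unfold Rd.cst
  congr 1
  ext t
  change (0 < t ∧ D.ρ g φ + t • D.ρ g δ ∈ D.Rt) ↔ (0 < t ∧ φ + t • δ ∈ D.Rt)
  rw [← map_smul, ← map_add, rt_ρ_iff]

theorem af_ρ {δ : D.V} (h : D.Af δ) (g : D.W) : D.Af (D.ρ g δ) := by
  obtain ⟨g', u, hu, rfl⟩ := h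
  exact ⟨g * g', u, hu, (ρ_mul g g' u).symm⟩

theorem fd_fp (hORD : Stmt_ORD) {u v : D.V} (hu : D.Af u) (hv : D.Af v) (hB : D.B u v = 0)
    (hne : u ≠ v) {φ : D.V} (hφ : φ ∈ D.Fd u) : φ ∈ D.Fp v := by
  obtain ⟨h1, h2, -⟩ := (hORD D u v hu hv).2 hB hne φ hφ
  exact ⟨hφ.1, h2, h1⟩

theorem fix_of_fd (hTHR : Stmt_THR) {u : D.V} (ha : D.Af u) (hne : (D.Fd u).Nonempty) {t : D.W}
    {χ : D.V →ₗ[ℝ] ℝ} (hχ : χ u = 0) (h : ∀ φ ∈ D.Fd u, D.ρ t φ = φ + χ φ • u) :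
    D.ρ t u = u := by
  obtain ⟨φ, hφ⟩ := hne
  have hc := cst_pos hTHR ha hφ
  have hf := fd_add hTHR ha hφ (rt_of_int hTHR ha hφ 1)
  have h1 := h _ hf
  rw [map_add, map_smul, h φ hφ, map_add, map_smul, hχ, smul_zero, add_zero] at h1
  have h2 : (((1 : ℤ) : ℝ) * D.cst u φ) • (D.ρ t u - u) = 0 := by
    rw [smul_sub]
    have h3 : φ + χ φ • u + (((1 : ℤ) : ℝ) * D.cst u φ) • D.ρ t u -
        (φ + (((1 : ℤ) : ℝ) * D.cst u φ) • u + χ φ • u) = 0 := by
      rw [h1, sub_self]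
    rw [← h3]
    module
  rw [smul_eq_zero] at h2
  rcases h2 with h2 | h2
  · push_cast at h2
    linarith
  · exact sub_eq_zero.1 h2

theorem prod_t (hORD : Stmt_ORD) {M : Subgroup D.W} (F : Finset D.V)
    (hF : ∀ u ∈ F, D.Af u) (hort : ∀ u ∈ F, ∀ v ∈ F, u ≠ v → D.B u v = 0)
    (hTHR : Stmt_THR) (tt : D.V → D.W) (χ : D.V → (D.V →ₗ[ℝ] ℝ))
    (hM : ∀ u ∈ F, tt u ∈ M) (hp : ∀ u ∈ F, ∀ μ ∈ D.Fp u, D.ρ (tt u) μ = μ)
    (hd : ∀ u ∈ F, ∀ φ ∈ D.Fd u, D.ρ (tt u) φ = φ + χ u φ • u) :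
    ∃ t ∈ M, (∀ u ∈ F, ∀ φ ∈ D.Fd u, D.ρ t φ = φ + χ u φ • u) ∧
      ∀ μ, (∀ u ∈ F, μ ∈ D.Fp u) → D.ρ t μ = μ := by
  classical
  induction F using Finset.induction_on with
  | empty => exact ⟨1, M.one_mem, fun u hu => absurd hu (Finset.notMem_empty u),
      fun μ _ => ρ_one μ⟩
  | insert u₀ F hu₀ ih =>
    obtain ⟨t, htM, h1, h2⟩ := ih (fun u hu => hF u (Finset.mem_insert_of_mem hu))
      (fun u hu v hv => hort u (Finset.mem_insert_of_mem hu) v (Finset.mem_insert_of_mem hv))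
      (fun u hu => hM u (Finset.mem_insert_of_mem hu))
      (fun u hu => hp u (Finset.mem_insert_of_mem hu))
      (fun u hu => hd u (Finset.mem_insert_of_mem hu))
    have m0 := Finset.mem_insert_self u₀ F
    refine ⟨tt u₀ * t, M.mul_mem (hM u₀ m0) htM, ?_, ?_⟩
    · intro u hu φ hφ
      rw [ρ_mul]
      rcases Finset.mem_insert.1 hu with rfl | hu'
      · rw [h2 φ ?_, hd u m0 φ hφ]
        intro v hv
        have hne : u ≠ v := by
          rintro rfl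
          exact hu₀ hv
        exact fd_fp hORD (hF u m0) (hF v (Finset.mem_insert_of_mem hv))
          (hort u m0 v (Finset.mem_insert_of_mem hv) hne) hne hφ
      · rw [h1 u hu' φ hφ]
        have hne : u ≠ u₀ := by
          rintro rfl
          exact hu₀ hu'
        have hf : φ + χ u φ • u ∈ D.Fd u := by
          apply fd_add hTHR (hF u hu) hφ
          rw [← hd u hu φ hφ]
          exact rt_ρ hφ.1 _
        exact hp u₀ m0 _ (fd_fp hORD (hF u hu) (hF u₀ m0) (hort u hu u₀ m0 hne) hne hf)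
    · intro μ hμ
      rw [ρ_mul, h2 μ fun u hu => hμ u (Finset.mem_insert_of_mem hu)]
      exact hp u₀ m0 μ (hμ u₀ m0)

/-- the comparison of two vertices with the same invariants -/
theorem compare (hTHR : Stmt_THR) (hVX1 : Stmt_VX1) (hCSU : Stmt_CSU) (hORT : Stmt_ORT)
    (hORD : Stmt_ORD) {K : Set D.S} (hK : Finite (D.par K)) {x y : Set D.V} (hx : D.YJ K x)
    (hy : D.YJ K y) (wx wy : D.W) (F : Finset D.V)
    (hF : ∀ u ∈ F, D.Af u ∧ (D.Fd u).Nonempty ∧ D.Big (D.act wx x) u ∧ D.Big (D.act wy y) u)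
    (hort : ∀ u ∈ F, ∀ v ∈ F, u ≠ v → D.B u v = 0)
    (hfx : ∀ s ∈ K, ∀ u ∈ F, D.ρ wx (D.e s) ∈ D.Fd u ∨ D.ρ wx (D.e s) ∈ D.Fp u)
    (hfy : ∀ s ∈ K, ∀ u ∈ F, D.ρ wy (D.e s) ∈ D.Fd u ∨ D.ρ wy (D.e s) ∈ D.Fp u)
    (hiff : ∀ s ∈ K, ∀ u ∈ F, D.ρ wx (D.e s) ∈ D.Fd u ↔ D.ρ wy (D.e s) ∈ D.Fd u)
    (hdir : ∀ s ∈ K, ∀ u ∈ F, D.ρ wx (D.e s) ∈ D.Fd u →
      ∃ τ : ℝ, D.ρ wy (D.e s) = D.ρ wx (D.e s) + τ • u)
    (heq : ∀ s ∈ K, (∀ u ∈ F, D.ρ wx (D.e s) ∉ D.Fd u) → D.ρ wx (D.e s) = D.ρ wy (D.e s))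
    (hneg : ∀ μ ∈ D.Ps, (∀ u ∈ F, μ ∉ D.Fd u) → (-μ ∈ D.act wx x ↔ -μ ∈ D.act wy y))
    {M : Subgroup D.W} (hMn : M.Normal) (hM : wy⁻¹ * wx ∈ M) {N E : ℕ}
    (hE : ∀ u ∈ F, LatP u M N E)
    (hd : ∀ u ∈ F, ∀ φ ∈ D.Fd u, (E : ℤ) ∣ dif u (D.act wx x) (D.act wy y) φ) :
    ∃ m ∈ M, m ∈ D.NJ K ∧ D.MR K N (D.act m x) y := by
  classical
  have hvx : D.Vx (D.act wx x) := (hVX1 D).2.1 x hx.1 wx
  have hvy : D.Vx (D.act wy y) := (hVX1 D).2.1 y hy.1 wy
  have hmn := (hVX1 D).2.2.2.2.2.2.1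
  have hmem := (hVX1 D).2.2.2.2.2.1
  have hmem' := (hVX1 D).2.2.2.2.1
  have hcpr : ∀ u ∈ F, Cpr K (D.act wx x) (D.act wy y) wx wy u := fun u hu =>
    { af := (hF u hu).1
      vx := hvx
      vy := hvy
      mx := fun φ hp hin => (hmn x hx.1 wx φ).1 (hx.2 φ hp hin)
      my := fun φ hp hin => (hmn y hy.1 wy φ).1 (hy.2 φ hp hin)
      fx := fun s hs => hfx s hs u hu
      fy := fun s hs => hfy s hs u hu
      iff := fun s hs => hiff s hs u hu
      dir := fun s hs => hdir s hs u hu }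
  have hone := fun u (hu : u ∈ F) =>
    (hcpr u hu).one hTHR hVX1 hCSU hORT hK (hE u hu) (hd u hu)
  choose! tt htM χ ν hχ0 hp hχ hν1 hν2 hν3 hν4 hν5 hν6 ht using hone
  obtain ⟨t, htM', hT1, hT2⟩ := prod_t hORD F (fun u hu => (hF u hu).1) hort hTHR tt χ htM hp hχ
  have hTu : ∀ u ∈ F, D.ρ t u = u := fun u hu =>
    fix_of_fd hTHR (hF u hu).1 (hF u hu).2.1 (hχ0 u hu) (hT1 u hu)
  -- the action of `t` on the roots of `K`
  have hTK : ∀ s ∈ K, D.ρ t (D.ρ wx (D.e s)) = D.ρ wy (D.e s) := by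
    intro s hs
    by_cases h : ∃ u ∈ F, D.ρ wx (D.e s) ∈ D.Fd u
    · obtain ⟨u, hu, hf⟩ := h
      rw [hT1 u hu _ hf, ← hχ u hu _ hf]
      exact ht u hu s hs hf
    · push Not at h
      rw [← heq s hs h]
      apply hT2
      intro u hu
      rcases hfx s hs u hu with h1 | h1
      · exact absurd h1 (h u hu)
      · exact h1
  set m : D.W := wy⁻¹ * (t * wx) with hm
  have hmK : ∀ φ, D.In K φ → D.ρ m φ = φ := by
    intro φ hφ
    refine map_in hφ (D.ρ m) LinearMap.id ?_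
    intro s hs
    change D.ρ m (D.e s) = D.e s
    rw [hm, ρ_mul, ρ_mul, hTK s hs, ρ_inv_ρ]
  have hmM : m ∈ M := by
    have e : m = (wy⁻¹ * wx) * (wx⁻¹ * t * wx⁻¹⁻¹) := by
      rw [hm]
      group
    rw [e]
    exact M.mul_mem hM (hMn.conj_mem t htM' wx⁻¹)
  have hmNJ : m ∈ D.NJ K := by
    intro φ
    constructor
    · rintro ⟨h1, h2⟩
      rw [hmK φ h2]
      exact ⟨h1, h2⟩
    · rintro ⟨h1, h2⟩
      have h3 := hmK _ h2
      have h4 : D.ρ m φ = φ := ρ_inj m h3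
      rw [h4] at h1 h2
      exact ⟨h1, h2⟩
  -- membership
  have mem1 : ∀ φ, φ ∈ D.act m x ↔ D.ρ t⁻¹ (D.ρ wy φ) ∈ D.act wx x := by
    intro φ
    rw [hmem, hmem wx]
    have e : D.ρ m⁻¹ φ = D.ρ wx⁻¹ (D.ρ t⁻¹ (D.ρ wy φ)) := by
      rw [← ρ_mul, ← ρ_mul, hm]
      congr 2
      group
    rw [e]
  have mem2 : ∀ φ, φ ∈ y ↔ D.ρ wy φ ∈ D.act wy y := fun φ => hmem' wy y φ
  have hBt : ∀ u ∈ F, ∀ v, D.B (D.ρ t⁻¹ v) u = D.B v u := by
    intro u hu v
    rw [B_ρ_inv, hTu u hu]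
  refine ⟨m, hmM, hmNJ, F.image (D.ρ wy⁻¹), fun δ φ => ν (D.ρ wy δ) (D.ρ wy φ), ?_⟩
  have hBu : ∀ (u v : D.V), D.B v (D.ρ wy⁻¹ u) = D.B (D.ρ wy v) u := fun u v => B_ρ_inv' wy v u
  have hfdu : ∀ (u v : D.V), v ∈ D.Fd (D.ρ wy⁻¹ u) ↔ D.ρ wy v ∈ D.Fd u := by
    intro u v
    rw [fd_ρ, inv_inv]
  have hcst : ∀ (u v : D.V), D.cst (D.ρ wy⁻¹ u) v = D.cst u (D.ρ wy v) := by
    intro u v
    conv_lhs => rw [← ρ_inv_ρ wy v]
    rw [cst_ρ]
  exact
    { vx := by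
        refine ⟨(hVX1 D).2.1 x hx.1 m, fun φ hp hin => ?_⟩
        have h1 := (hmn x hx.1 m φ).1 (hx.2 φ hp hin)
        rwa [hmK φ hin] at h1
      vy := hy
      af := by
        intro δ hδ
        obtain ⟨u, hu, rfl⟩ := Finset.mem_image.1 hδ
        refine ⟨af_ρ (hF u hu).1 _, ?_, ?_, ?_⟩
        · intro φ _ hin
          rw [B_symm]
          apply B_in hin
          intro s hs
          rw [B_symm, hBu]
          rcases hfy s hs u hu with h1 | h1
          · exact ((hORT D).1 u (hF u hu).1).1 _ h1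
          · exact h1.2.1
        · intro μ hμ hB
          rw [mem1]
          refine (hF u hu).2.2.1 _ (rt_ρ (rt_ρ hμ _) _) ?_
          rw [hBt u hu]
          rwa [hBu] at hB
        · intro μ hμ hB
          rw [mem2]
          refine (hF u hu).2.2.2 _ (rt_ρ hμ _) ?_
          rwa [hBu] at hB
      ort := by
        intro δ hδ δ' hδ' hne
        obtain ⟨u, hu, rfl⟩ := Finset.mem_image.1 hδ
        obtain ⟨v, hv, rfl⟩ := Finset.mem_image.1 hδ'
        rw [B_ρ]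
        exact hort u hu v hv fun h => hne (by rw [h])
      shd := by
        intro δ hδ
        obtain ⟨u, hu, rfl⟩ := Finset.mem_image.1 hδ
        exact
          { dir := by
              intro φ hφ t' ht'
              rw [hfdu] at hφ ht'
              rw [ρ_ρ_inv]
              rw [map_add, map_smul, ρ_ρ_inv] at ht' ⊢
              exact hν2 u hu _ hφ t' ht'
            odd := by
              intro φ hφ
              rw [hfdu] at hφ
              rw [ρ_ρ_inv, map_neg]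
              exact hν3 u hu _ hφ
            dvd := by
              intro φ hφ
              rw [hfdu] at hφ
              rw [ρ_ρ_inv]
              exact hν4 u hu _ hφ
            zro := by
              intro φ hφ hin
              have hr := hφ.1
              rw [hfdu] at hφ
              rw [ρ_ρ_inv]
              exact hν5 u hu φ hr hin hφ
            ort := by
              intro A hA χ' hχ' hz
              have h1 := hν6 u hu (A.map ⟨D.ρ wy, ρ_inj wy⟩) ?_ (χ' ∘ₗ D.ρ wy⁻¹) hχ' ?_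
              · rw [Finset.sum_map] at h1
                rw [← h1]
                refine Finset.sum_congr rfl fun α _ => ?_
                change (ν (D.ρ wy (D.ρ wy⁻¹ u)) (D.ρ wy α) : ℝ) * χ' α / D.cst (D.ρ wy⁻¹ u) α =
                  (ν u (D.ρ wy α) : ℝ) * χ' (D.ρ wy⁻¹ (D.ρ wy α)) / D.cst u (D.ρ wy α)
                rw [ρ_ρ_inv, ρ_inv_ρ, hcst]
              · constructor
                · intro α hα
                  rw [Finset.mem_map] at hα
                  obtain ⟨α', hα', rfl⟩ := hα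
                  exact (hfdu u α').1 (hA.1 α' hα')
                · intro φ hφ
                  have h2 : D.ρ wy⁻¹ φ ∈ D.Fd (D.ρ wy⁻¹ u) := by
                    rw [hfdu, ρ_ρ_inv]
                    exact hφ
                  obtain ⟨α, ⟨hα, τ, hτ⟩, hu'⟩ := hA.2 _ h2
                  refine ⟨D.ρ wy α, ⟨Finset.mem_map_of_mem ⟨D.ρ wy, ρ_inj wy⟩ hα, τ, ?_⟩, ?_⟩
                  · rw [← ρ_ρ_inv wy φ, hτ, map_add, map_smul, ρ_ρ_inv]
                  · rintro β ⟨hβ, τ', hτ'⟩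
                    rw [Finset.mem_map] at hβ
                    obtain ⟨β', hβ', rfl⟩ := hβ
                    change D.ρ wy β' = D.ρ wy α
                    rw [hu' β' ⟨hβ', τ', ?_⟩]
                    have h3 : φ = D.ρ wy β' + τ' • u := hτ'
                    rw [h3, map_add, map_smul, ρ_inv_ρ]
              · intro φ hφ hin hf
                change χ' (D.ρ wy⁻¹ (D.ρ wy φ)) = 0
                rw [ρ_inv_ρ]
                exact hz φ ((hfdu u φ).2 hf) hin }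
      out := by
        intro φ hφ hnf
        rw [mem1, mem2]
        have hr : D.ρ wy φ ∈ D.Rt := rt_ρ hφ _
        have hnf' : ∀ u ∈ F, D.ρ wy φ ∉ D.Fd u := by
          intro u hu h1
          exact hnf _ (Finset.mem_image_of_mem _ hu) ((hfdu u φ).2 h1)
        by_cases h1 : ∃ u ∈ F, D.B (D.ρ wy φ) u ≠ 0
        · obtain ⟨u, hu, hB⟩ := h1
          rcases lt_or_gt_of_ne hB with hB | hB
          · have a1 : D.ρ t⁻¹ (D.ρ wy φ) ∈ D.act wx x := by
              refine (hF u hu).2.2.1 _ (rt_ρ hr _) ?_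
              rw [hBt u hu]
              exact hB
            have a2 : D.ρ wy φ ∈ D.act wy y := (hF u hu).2.2.2 _ hr hB
            exact ⟨fun _ => a2, fun _ => a1⟩
          · have a1 : -D.ρ t⁻¹ (D.ρ wy φ) ∈ D.act wx x := by
              refine (hF u hu).2.2.1 _ (rt_neg (rt_ρ hr _)) ?_
              rw [B_neg_left, hBt u hu]
              linarith
            have a2 : -D.ρ wy φ ∈ D.act wy y := by
              refine (hF u hu).2.2.2 _ (rt_neg hr) ?_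
              rw [B_neg_left]
              linarith
            rw [mem_iff_not_neg hVX1 hvx (rt_ρ hr _), mem_iff_not_neg hVX1 hvy hr]
            exact ⟨fun h => absurd a1 h, fun h => absurd a2 h⟩
        · push Not at h1
          have hfix : D.ρ t (D.ρ wy φ) = D.ρ wy φ :=
            hT2 _ fun u hu => ⟨hr, h1 u hu, hnf' u hu⟩
          have hfix' : D.ρ t⁻¹ (D.ρ wy φ) = D.ρ wy φ := by
            conv_lhs => rw [← hfix]
            rw [ρ_inv_ρ]
          rw [hfix']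
          rcases ps_or hr with hp' | hp'
          · rw [mem_iff_not_neg hVX1 hvx hr, mem_iff_not_neg hVX1 hvy hr,
              hneg _ hp' hnf']
          · have h2 := hneg _ hp' (fun u hu h3 => hnf' u hu (by
              have := fd_neg hTHR (hF u hu).1 h3
              rwa [neg_neg] at this))
            rwa [neg_neg] at h2
      inn := by
        intro δ hδ φ hφ
        obtain ⟨u, hu, rfl⟩ := Finset.mem_image.1 hδ
        rw [hfdu] at hφ
        rw [mem1, mem2, dif_spec hTHR (hF u hu).1 hvx hvy hφ]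
        have e : D.ρ wy φ - ((dif u (D.act wx x) (D.act wy y) (D.ρ wy φ) : ℝ) *
            D.cst u (D.ρ wy φ)) • u = D.ρ t⁻¹ (D.ρ wy (φ - ((ν (D.ρ wy (D.ρ wy⁻¹ u))
              (D.ρ wy φ) : ℝ) * D.cst (D.ρ wy⁻¹ u) φ) • D.ρ wy⁻¹ u)) := by
          apply ρ_inj t
          rw [ρ_ρ_inv, map_sub, map_smul, hTu u hu, hT1 u hu _ hφ, map_sub, map_smul, ρ_ρ_inv,
            hcst, ← hν1 u hu _ hφ]
          module
        rw [e] }

end Pool.CS.FORb
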