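import Pool.Agent.Work.MP_64ea0f_cs.InterfaceD

set_option autoImplicit false

/-! # Block PROD of MP_64ea0f_cs (helper48) -/

namespace Pool.CS

theorem prod_thm : Stmt_PROD := by
  intro Λ G A V V' _ _ L L' π hπ heq
  have hM : ∀ a v, π ((L'.rest A).τ a v) = (L.rest A).τ a (π v) := by
    intro a v
    by_cases h : a ∈ A
    · rw [LS.rest_mem _ h, LS.rest_mem _ h, heq a h]
    · rw [LS.rest_not _ h, LS.rest_not _ h]
  let K : LS G {q : Equiv.Perm V' × Equiv.Perm V // ∀ w, π (q.1 w) = q.2 (π w)} :=
    { τ := fun a q => ⟨(q.1.1 * (L'.rest A).perm a, q.1.2 * (L.rest A).perm a), fun w => by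
        change π (q.1.1 ((L'.rest A).τ a w)) = q.1.2 ((L.rest A).τ a (π w))
        rw [q.2, hM]⟩
      inv := fun a q => by
        apply Subtype.ext
        apply Prod.ext
        · apply Equiv.ext
          intro w
          change q.1.1 ((L'.rest A).τ a ((L'.rest A).τ a w)) = q.1.1 w
          rw [(L'.rest A).inv]
        · apply Equiv.ext
          intro w
          change q.1.2 ((L.rest A).τ a ((L.rest A).τ a w)) = q.1.2 w
          rw [(L.rest A).inv]
      com := fun a b h q => by
        apply Subtype.ext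
        apply Prod.ext
        · apply Equiv.ext
          intro w
          change q.1.1 ((L'.rest A).τ b ((L'.rest A).τ a w)) =
            q.1.1 ((L'.rest A).τ a ((L'.rest A).τ b w))
          rw [(L'.rest A).com a b h]
        · apply Equiv.ext
          intro w
          change q.1.2 ((L.rest A).τ b ((L.rest A).τ a w)) =
            q.1.2 ((L.rest A).τ a ((L.rest A).τ b w))
          rw [(L.rest A).com a b h] }
  have hK1 : ∀ a q w, (K.τ a q).1.1.symm w = (L'.rest A).τ a (q.1.1.symm w) := fun a q w => rfl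
  have hK2 : ∀ a q v, (K.τ a q).1.2 v = q.1.2 ((L.rest A).τ a v) := fun a q v => rfl
  choose ς hς using hπ
  have hinv : ∀ (q : {q : Equiv.Perm V' × Equiv.Perm V // ∀ w, π (q.1 w) = q.2 (π w)}) w,
      π (q.1.1.symm w) = q.1.2.symm (π w) := by
    intro q w
    have h := q.2 (q.1.1.symm w)
    rw [Equiv.apply_symm_apply] at h
    rw [h, Equiv.symm_apply_apply]
  refine ⟨_, inferInstance, ⟨⟨(1, 1), fun w => rfl⟩⟩, K,
    fun x => x.2.1.1.symm (ς (x.2.1.2 x.1)), ?_, ?_, ?_⟩
  · intro a ha q
    apply Subtype.ext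
    apply Prod.ext
    · apply Equiv.ext
      intro w
      change q.1.1 ((L'.rest A).τ a w) = q.1.1 w
      rw [LS.rest_not _ ha]
    · apply Equiv.ext
      intro w
      change q.1.2 ((L.rest A).τ a w) = q.1.2 w
      rw [LS.rest_not _ ha]
  · intro x
    rw [hinv, hς, Equiv.symm_apply_apply]
  · intro a ha x
    change (K.τ a x.2).1.1.symm (ς ((K.τ a x.2).1.2 (L.τ a x.1))) = _
    rw [hK1, hK2, LS.rest_mem _ ha, LS.rest_mem _ ha, L.inv]

end Pool.CS
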